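import Pool.Agent.Lib_helper69.KP.L
import Pool.Agent.Lib_helper39.TP.Defs

/-!
# Block L2: the local theorem in the TP frame, from `KP.local_norm` (MP_3b4c52_gt, helper69)
-/

open scoped ContDiff InnerProductSpace Topology
open Metric Set Module

noncomputable section

namespace Pool.Agent.KP

section
variable {T' Y' T'' Y'' : Type} [NormedAddCommGroup T'] [NormedSpace ℝ T']
  [NormedAddCommGroup Y'] [NormedSpace ℝ Y'] [NormedAddCommGroup T''] [NormedSpace ℝ T'']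
  [NormedAddCommGroup Y''] [NormedSpace ℝ Y'']

theorem fderiv_conj (f : T' → Y') (hf : ContDiff ℝ ∞ f) (α : T' ≃L[ℝ] T'') (κ : Y' ≃L[ℝ] Y'')
    (x η : T'') :
    fderiv ℝ (fun x => κ (f (α.symm x))) x η = κ (fderiv ℝ f (α.symm x) (α.symm η)) := by
  have h1 : HasFDerivAt f (fderiv ℝ f (α.symm x)) (α.symm x) :=
    (hf.differentiable (by simp) _).hasFDerivAt
  have h2 : HasFDerivAt (fun x => f (α.symm x)) ((fderiv ℝ f (α.symm x)).comp (α.symm : T'' →L[ℝ] T')) x :=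
    h1.comp x (α.symm : T'' →L[ℝ] T').hasFDerivAt
  have h3 : HasFDerivAt (fun x => κ (f (α.symm x)))
      ((κ : Y' →L[ℝ] Y'').comp ((fderiv ℝ f (α.symm x)).comp (α.symm : T'' →L[ℝ] T'))) x :=
    (κ : Y' →L[ℝ] Y'').hasFDerivAt.comp x h2
  rw [h3.fderiv]
  rfl

theorem fderiv2_conj (f : T' → Y') (hf : ContDiff ℝ ∞ f) (α : T' ≃L[ℝ] T'') (κ : Y' ≃L[ℝ] Y'')
    (x ξ η : T'') :
    fderiv ℝ (fderiv ℝ (fun x => κ (f (α.symm x)))) x ξ η
      = κ (fderiv ℝ (fderiv ℝ f) (α.symm x) (α.symm ξ) (α.symm η)) := by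
  have hg : ContDiff ℝ ∞ (fun x => κ (f (α.symm x))) :=
    κ.contDiff.comp (hf.comp α.symm.contDiff)
  have hg1 : Differentiable ℝ (fderiv ℝ (fun x => κ (f (α.symm x)))) :=
    (hg.fderiv_right (m := ∞) (by simp)).differentiable (by simp)
  have hf1 : Differentiable ℝ (fderiv ℝ f) :=
    (hf.fderiv_right (m := ∞) (by simp)).differentiable (by simp)
  have e1 : fderiv ℝ (fderiv ℝ (fun x => κ (f (α.symm x)))) x ξ η
      = fderiv ℝ (fun x => fderiv ℝ (fun x => κ (f (α.symm x))) x η) x ξ := by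
    rw [fderiv_clm_apply (hg1 x) (differentiableAt_const _)]
    simp
  have e2 : (fun x => fderiv ℝ (fun x => κ (f (α.symm x))) x η)
      = fun x => κ (fderiv ℝ f (α.symm x) (α.symm η)) := by
    funext x
    exact fderiv_conj f hf α κ x η
  rw [e1, e2]
  have h1 : HasFDerivAt (fun y => fderiv ℝ f y (α.symm η))
      ((ContinuousLinearMap.apply ℝ Y' (α.symm η)).comp (fderiv ℝ (fderiv ℝ f) (α.symm x)))
      (α.symm x) :=
    (ContinuousLinearMap.apply ℝ Y' (α.symm η)).hasFDerivAt.comp _ (hf1 _).hasFDerivAt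
  have h2 := h1.comp x (α.symm : T'' →L[ℝ] T').hasFDerivAt
  have h3 := (κ : Y' →L[ℝ] Y'').hasFDerivAt.comp x h2
  rw [show (fun x => κ (fderiv ℝ f (α.symm x) (α.symm η))) =
    (fun y => (κ : Y' →L[ℝ] Y'') (((fun y => fderiv ℝ f y (α.symm η)) ∘ (α.symm : T'' →L[ℝ] T')) y)) from rfl]
  erw [h3.fderiv]
  rfl

end

/-- the normed product of a normal form -/
def nprodOf {d : ℕ} {T' Y' : Type} [NormedAddCommGroup T'] [NormedSpace ℝ T']
    [NormedAddCommGroup Y'] [NormedSpace ℝ Y'] {B : T' →L[ℝ] T' →L[ℝ] Y'}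
    (nf : TP.NormalForm d B) : NProd d where
  mul := nf.F.flip
  norm_mul := by
    intro v u
    rw [ContinuousLinearMap.flip_apply, nf.comp, mul_comm]

theorem nf_polar {d : ℕ} {T' Y' : Type} [NormedAddCommGroup T'] [NormedSpace ℝ T']
    [NormedAddCommGroup Y'] [NormedSpace ℝ Y'] {B : T' →L[ℝ] T' →L[ℝ] Y'}
    (hs : ∀ u v, B u v = B v u) (nf : TP.NormalForm d B) (ξ η : T') :
    nf.κ (B ξ η) = Q0 (nprodOf nf) (nf.α ξ) (nf.α η) := by
  have hdiag : ∀ w, nf.κ (B w w) = Q0 (nprodOf nf) (nf.α w) (nf.α w) := by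
    intro w
    rw [nf.eq, Q0_apply, real_inner_self_eq_norm_sq, real_inner_self_eq_norm_sq]
    refine Prod.ext rfl (Prod.ext rfl ?_)
    show nf.F (nf.α w).1 (nf.α w).2 = (1/2 : ℝ) • (nf.F (nf.α w).1 (nf.α w).2 + nf.F (nf.α w).1 (nf.α w).2)
    module
  have h1 : B (ξ + η) (ξ + η) = B ξ ξ + B η η + (2 : ℝ) • B ξ η := by
    simp only [map_add, _root_.add_apply]
    rw [hs η ξ]; module
  have h2 : Q0 (nprodOf nf) (nf.α (ξ + η)) (nf.α (ξ + η)) = Q0 (nprodOf nf) (nf.α ξ) (nf.α ξ)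
      + Q0 (nprodOf nf) (nf.α η) (nf.α η) + (2 : ℝ) • Q0 (nprodOf nf) (nf.α ξ) (nf.α η) := by
    simp only [map_add, _root_.add_apply]
    rw [Q0_comm (nprodOf nf) (nf.α η) (nf.α ξ)]; module
  have h3 := hdiag (ξ + η)
  rw [h1, h2, map_add, map_add, hdiag, hdiag, map_smul] at h3
  have h4 := add_left_cancel h3
  exact smul_right_injective (N d) (two_ne_zero (α := ℝ)) h4

end Pool.Agent.KP

namespace Pool.Agent.TP

open Pool.Agent.KP (local_norm nprodOf nf_polar fderiv2_conj fderiv_conj Q0)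

variable {T Y : Type} [NormedAddCommGroup T] [NormedSpace ℝ T] [FiniteDimensional ℝ T]
  [NormedAddCommGroup Y] [NormedSpace ℝ Y] [FiniteDimensional ℝ Y]

/-- The local theorem of the TP frame, from `KP.local_norm`. `hnf` is provided by the blocks
A2 and A3. -/
theorem local_theorem_of_norm {d : ℕ} (hd : 2 ≤ d) {f : T → Y} {R : ℝ} (h : LocData d f R)
    (hnf : ∀ B : T →L[ℝ] T →L[ℝ] Y, PtData d B → Nonempty (NormalForm d B)) :
    ∃ (_ : NormalForm d (D2 f 0)) (S : Y →L[ℝ] T) (l : T × Y →L[ℝ] ℝ) (r : ℝ), 0 < r ∧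
      ∀ z ∈ ball (0 : T) r, (1 + l (z, f z)) • f z =
        (1 / 2 : ℝ) • D2 f 0 (z + S (f z)) (z + S (f z)) := by
  obtain ⟨nf⟩ := hnf _ (h.pt 0 (mem_ball_self h.hR))
  set F : KP.T d → KP.N d := fun x => nf.κ (f (nf.α.symm x)) with hF
  have hFs : ContDiff ℝ ∞ F := nf.κ.contDiff.comp (h.smooth.comp nf.α.symm.contDiff)
  have hD : ∀ x ξ η, KP.D2 F x ξ η = nf.κ (D2 f (nf.α.symm x) (nf.α.symm ξ) (nf.α.symm η)) :=
    fun x ξ η => fderiv2_conj f h.smooth nf.α nf.κ x ξ η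
  set Ω : Set (KP.T d) := nf.α.symm ⁻¹' ball (0 : T) R with hΩ
  have hΩo : IsOpen Ω := isOpen_ball.preimage nf.α.symm.continuous
  have h0Ω : (0 : KP.T d) ∈ Ω := by
    simp only [hΩ, mem_preimage, map_zero]
    exact mem_ball_self h.hR
  have hStd : ∀ x ∈ Ω, KP.Std (KP.D2 F x) := by
    intro x hx
    have hpt := h.pt _ hx
    obtain ⟨nf'⟩ := hnf _ hpt
    refine ⟨nprodOf nf', nf'.κ.symm.trans nf.κ, nf.α.symm.trans nf'.α, fun ξ η => ?_⟩
    rw [hD]
    show _ = nf.κ (nf'.κ.symm (Q0 (nprodOf nf') (nf'.α (nf.α.symm ξ)) (nf'.α (nf.α.symm η))))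
    rw [← nf_polar hpt.symm nf', ContinuousLinearEquiv.symm_apply_apply]
  have hsymm0 := (h.pt 0 (mem_ball_self h.hR)).symm
  obtain ⟨c₀, ψ, hloc⟩ := local_norm hd (nprodOf nf) F Ω hΩo h0Ω hFs.contDiffOn hStd
    (by simp [hF, h.f0])
    (by
      refine ContinuousLinearMap.ext fun η => ?_
      rw [hF, fderiv_conj f h.smooth nf.α nf.κ 0 η, map_zero, h.df0]
      simp)
    (by
      refine ContinuousLinearMap.ext fun ξ => ContinuousLinearMap.ext fun η => ?_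
      rw [hD, map_zero, nf_polar hsymm0 nf]
      simp)
  refine ⟨nf, ((nf.α.symm : KP.T d →L[ℝ] T).comp c₀).comp (nf.κ : Y →L[ℝ] KP.N d),
    -((ψ.comp (nf.κ : Y →L[ℝ] KP.N d)).comp (ContinuousLinearMap.snd ℝ T Y)), ?_⟩
  have hT : Filter.Tendsto nf.α (𝓝 (0 : T)) (𝓝 (0 : KP.T d)) := by
    have := nf.α.continuous.tendsto (0 : T)
    rwa [map_zero] at this
  have hev := hT.eventually hloc
  obtain ⟨r, hr, hball⟩ := Metric.eventually_nhds_iff_ball.mp hev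
  refine ⟨r, hr, fun z hz => ?_⟩
  have hz := hball z hz
  apply nf.κ.injective
  have e1 : F (nf.α z) = nf.κ (f z) := by simp [hF]
  rw [e1] at hz
  rw [map_smul, map_smul, nf_polar hsymm0 nf]
  have e2 : nf.α (z + (((nf.α.symm : KP.T d →L[ℝ] T).comp c₀).comp (nf.κ : Y →L[ℝ] KP.N d)) (f z))
      = nf.α z + c₀ (nf.κ (f z)) := by
    rw [map_add]
    congr 1
    exact nf.α.apply_symm_apply _
  rw [e2]
  have e3 : (1 + (-((ψ.comp (nf.κ : Y →L[ℝ] KP.N d)).comp (ContinuousLinearMap.snd ℝ T Y))) (z, f z))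
      = 1 - ψ (nf.κ (f z)) := by
    show 1 + -(ψ (nf.κ (f z))) = _
    ring
  rw [e3]
  exact hz

end Pool.Agent.TP
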