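import Pool.Agent.Lib_helper69.KP.NProdBasic

/-!
# Block F: third order algebra (MP_3b4c52_gt, helper69)
-/

open scoped InnerProductSpace

noncomputable section

namespace Pool.Agent.KP

variable {d : ℕ}

/-- polynomial identity principle in degree 5: vanishing of the first coefficients -/
theorem poly5 (c0 c1 c2 c3 c4 c5 : ℝ)
    (h : ∀ t : ℝ, c0 + c1 * t + c2 * t ^ 2 + c3 * t ^ 3 + c4 * t ^ 4 + c5 * t ^ 5 = 0) :
    c0 = 0 ∧ c1 = 0 ∧ c2 = 0 := by
  have h0 := h 0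
  have h1 := h 1
  have h2 := h (-1)
  have h3 := h 2
  have h4 := h (-2)
  have h5 := h 3
  have h6 := h (-3)
  norm_num at h0 h1 h2 h3 h4 h5 h6
  refine ⟨h0, ?_, ?_⟩ <;> linarith

/-- a trilinear symmetric function, unbundled -/
structure SymTri (C : T d → T d → T d → N d) : Prop where
  add : ∀ x x' y z, C (x + x') y z = C x y z + C x' y z
  smul : ∀ (r : ℝ) x y z, C (r • x) y z = r • C x y z
  s12 : ∀ x y z, C x y z = C y x z
  s23 : ∀ x y z, C x y z = C x z y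

namespace SymTri

variable {C : T d → T d → T d → N d} (hC : SymTri C)
include hC

theorem add2 (x y y' z) : C x (y + y') z = C x y z + C x y' z := by
  rw [hC.s12, hC.add, hC.s12 y, hC.s12 y']

theorem add3 (x y z z') : C x y (z + z') = C x y z + C x y z' := by
  rw [hC.s23, hC.add2, hC.s23 x z, hC.s23 x z']

theorem smul2 (r : ℝ) (x y z) : C x (r • y) z = r • C x y z := by
  rw [hC.s12, hC.smul, hC.s12 y]

theorem smul3 (r : ℝ) (x y z) : C x y (r • z) = r • C x y z := by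
  rw [hC.s23, hC.smul2, hC.s23 x z]

end SymTri

/-- `NCond` for unbundled functions -/
def NC (p : NProd d) (C : T d → T d → T d → N d) : Prop :=
  ∀ ν : N d →L[ℝ] ℝ, ∃ l : T d → ℝ, ∀ z η η' : T d,
    (∀ ξ, ν (Q0 p η ξ) = 0) → (∀ ξ, ν (Q0 p η' ξ) = 0) →
      ν (C z η η') = l z * (⟪η.1, η'.1⟫_ℝ + ⟪η.2, η'.2⟫_ℝ)

/-- the null functional `ν_s` -/
def nuS (s : E d) : N d →L[ℝ] ℝ :=
  LinearMap.toContinuousLinearMap
    { toFun := fun X => ‖s‖ ^ 2 * X.1 + X.2.1 - 2 * ⟪s, X.2.2⟫_ℝ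
      map_add' := by intro X Y; simp [inner_add_right]; ring
      map_smul' := by intro r X; simp [inner_smul_right]; ring }

theorem nuS_apply (s : E d) (X : N d) :
    nuS s X = ‖s‖ ^ 2 * X.1 + X.2.1 - 2 * ⟪s, X.2.2⟫_ℝ := rfl

theorem nuS_ker (p : NProd d) (s u : E d) (ξ : T d) : nuS s (Q0 p (u, p.adj s u) ξ) = 0 := by
  rw [nuS_apply, Q0_apply]
  simp only [inner_smul_right, inner_add_right]
  rw [← p.inner_adj s ξ.1 (p.adj s u), ← p.inner_adj s u ξ.2, p.inner_adj_adj, real_inner_comm u ξ.1]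
  ring

/-- the consequences of the null condition at `ν_s` -/
theorem nc_cons (hd : 2 ≤ d) (p : NProd d) (C : T d → T d → T d → N d) (hC : SymTri C)
    (hN : NC p C) (s : E d) :
    (∀ u : E d, nuS s (C (u, p.adj s u) (u, p.adj s u) (u, p.adj s u)) = 0) ∧
    (∀ (z : T d) (u u₁ : E d), ‖u₁‖ = 1 →
      nuS s (C z (u, p.adj s u) (u, p.adj s u)) =
        nuS s (C z (u₁, p.adj s u₁) (u₁, p.adj s u₁)) * ‖u‖ ^ 2) := by
  obtain ⟨l, hl⟩ := hN (nuS s)
  have key : ∀ z u u', nuS s (C z (u, p.adj s u) (u', p.adj s u')) =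
      (l z * (1 + ‖s‖ ^ 2)) * ⟪u, u'⟫_ℝ := by
    intro z u u'
    rw [hl z _ _ (nuS_ker p s u) (nuS_ker p s u')]
    simp only [p.inner_adj_adj]
    ring
  constructor
  · intro u
    obtain ⟨w, hw1, hw2⟩ := exists_unit_orthogonal hd u
    have h1 := key (u, p.adj s u) w w
    rw [hC.s12, key (w, p.adj s w) u w, hw2, mul_zero, real_inner_self_eq_norm_sq, hw1] at h1
    have h2 : l (u, p.adj s u) * (1 + ‖s‖ ^ 2) = 0 := by linarith
    rw [key, h2, zero_mul]
  · intro z u u₁ hu₁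
    rw [key, key, real_inner_self_eq_norm_sq, real_inner_self_eq_norm_sq, hu₁]
    ring

theorem cube_expand (C : T d → T d → T d → N d) (hC : SymTri C) (x y : T d) (t : ℝ) :
    C (x + t • y) (x + t • y) (x + t • y) =
      C x x x + (3 * t) • C x x y + (3 * t ^ 2) • C x y y + t ^ 3 • C y y y := by
  simp only [hC.add, hC.add2, hC.add3, hC.smul, hC.smul2, hC.smul3]
  rw [hC.s12 y x x, hC.s23 x y x, hC.s12 y x y, hC.s23 y y x, hC.s12 y x y]
  module

theorem sq_expand (C : T d → T d → T d → N d) (hC : SymTri C) (z x y : T d) (t : ℝ) :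
    C z (x + t • y) (x + t • y) =
      C z x x + (2 * t) • C z x y + t ^ 2 • C z y y := by
  simp only [hC.add2, hC.add3, hC.smul2, hC.smul3]
  rw [hC.s23 z y x]
  module

theorem pair_eq (u w : E d) (t : ℝ) : ((u, t • w) : T d) = (u, 0) + t • ((0, w) : T d) := by
  simp

/-- Riesz representation of an additive homogeneous function -/
theorem exists_riesz (g : E d → ℝ) (ha : ∀ x y, g (x + y) = g x + g y)
    (hs : ∀ (r : ℝ) x, g (r • x) = r * g x) : ∃ k : E d, ∀ x, g x = ⟪k, x⟫_ℝ := by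
  let G : E d →L[ℝ] ℝ := LinearMap.toContinuousLinearMap
    { toFun := g, map_add' := ha, map_smul' := by intro r x; simp [hs] }
  refine ⟨(InnerProductSpace.toDual ℝ (E d)).symm G, fun x => ?_⟩
  rw [InnerProductSpace.toDual_symm_apply]
  rfl

/-- Riesz representation of a bilinear function -/
theorem exists_riesz2 (g : E d → E d → ℝ) (ha1 : ∀ x x' y, g (x + x') y = g x y + g x' y)
    (hs1 : ∀ (r : ℝ) x y, g (r • x) y = r * g x y)
    (ha : ∀ z x y, g z (x + y) = g z x + g z y)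
    (hs : ∀ (r : ℝ) z x, g z (r • x) = r * g z x) :
    ∃ B : E d →ₗ[ℝ] E d, ∀ x y, g x y = ⟪B x, y⟫_ℝ := by
  choose B hB using fun x => exists_riesz (g x) (ha x) (fun r y => hs r x y)
  refine ⟨{ toFun := B, map_add' := ?_, map_smul' := ?_ }, fun x y => hB x y⟩
  · intro x x'
    refine ext_inner_right ℝ fun y => ?_
    rw [inner_add_left, ← hB, ← hB, ← hB, ha1]
  · intro r x
    refine ext_inner_right ℝ fun y => ?_
    rw [RingHom.id_apply, inner_smul_left, ← hB, ← hB, hs1]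
    simp

theorem half (hd : 2 ≤ d) (p : NProd d) (C : T d → T d → T d → N d) (hC : SymTri C)
    (hN : NC p C) : ∃ (k0 l0 : E d) (CV : E d →ₗ[ℝ] E d),
      (∀ u : E d, C (u, 0) (u, 0) (u, 0) =
        ((3 * ‖u‖ ^ 2 * ⟪k0, u⟫_ℝ, 0, (3 / 2 * ‖u‖ ^ 2) • p.mul l0 u) : N d)) ∧
      (∀ u v : E d, (C (u, 0) (u, 0) (0, v)).2.1 = ‖u‖ ^ 2 * ⟪l0, v⟫_ℝ) ∧
      (∀ u v : E d, (C (u, 0) (u, 0) (0, v)).2.2 =
        (1 / 2 : ℝ) • (‖u‖ ^ 2 • p.mul v k0 + p.mul (CV (p.mul v u)) u)) ∧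
      (∀ u v : E d, (C (u, 0) (0, v) (0, v)).2.1 = ⟪CV (p.mul v u), v⟫_ℝ) := by
  obtain ⟨u₁, hu₁⟩ := exists_unit (d := d) (by omega)
  have lin1 : ∀ (u u' : E d), ((u + u', 0) : T d) = (u, 0) + (u', 0) := by intro u u'; simp
  have lin2 : ∀ (v v' : E d), ((0, v + v') : T d) = (0, v) + (0, v') := by intro u u'; simp
  have lin3 : ∀ (r : ℝ) (u : E d), ((r • u, 0) : T d) = r • (u, 0) := by intro r u; simp
  have lin4 : ∀ (r : ℝ) (v : E d), ((0, r • v) : T d) = r • (0, v) := by intro r u; simp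
  have zero1 : ∀ y z : T d, C ((0 : E d), (0 : E d)) y z = 0 := by
    intro y z
    have h := hC.smul 0 (0, 0) y z
    rw [zero_smul, zero_smul] at h
    exact h
  -- the two families of identities
  have A : ∀ (s u : E d) (t : ℝ), nuS (t • s) (C (u, t • p.adj s u) (u, t • p.adj s u)
      (u, t • p.adj s u)) = 0 := by
    intro s u t
    have := (nc_cons hd p C hC hN (t • s)).1 u
    rwa [p.adj_smul_left] at this
  have B : ∀ (s u : E d) (z : T d) (t : ℝ),
      nuS (t • s) (C z (u, t • p.adj s u) (u, t • p.adj s u)) =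
      nuS (t • s) (C z (u₁, t • p.adj s u₁) (u₁, t • p.adj s u₁)) * ‖u‖ ^ 2 := by
    intro s u z t
    have := (nc_cons hd p C hC hN (t • s)).2 z u u₁ hu₁
    rwa [p.adj_smul_left, p.adj_smul_left] at this
  have nu : ∀ (s : E d) (t : ℝ) (X : N d), nuS (t • s) X =
      t ^ 2 * ‖s‖ ^ 2 * X.1 + X.2.1 - 2 * t * ⟪s, X.2.2⟫_ℝ := by
    intro s t X
    rw [nuS_apply, norm_smul, inner_smul_left, Real.norm_eq_abs, mul_pow, sq_abs]
    simp; ring
  -- coefficients of A
  have A' : ∀ (s u : E d), (C (u, 0) (u, 0) (u, 0)).2.1 = 0 ∧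
      3 * (C (u, 0) (u, 0) (0, p.adj s u)).2.1 - 2 * ⟪s, (C (u, 0) (u, 0) (u, 0)).2.2⟫_ℝ = 0 ∧
      ‖s‖ ^ 2 * (C (u, 0) (u, 0) (u, 0)).1 + 3 * (C (u, 0) (0, p.adj s u) (0, p.adj s u)).2.1
        - 6 * ⟪s, (C (u, 0) (u, 0) (0, p.adj s u)).2.2⟫_ℝ = 0 := by
    intro s u
    apply poly5 _ _ _
      (3 * ‖s‖ ^ 2 * (C (u, 0) (u, 0) (0, p.adj s u)).1
        + (C (0, p.adj s u) (0, p.adj s u) (0, p.adj s u)).2.1
        - 6 * ⟪s, (C (u, 0) (0, p.adj s u) (0, p.adj s u)).2.2⟫_ℝ)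
      (3 * ‖s‖ ^ 2 * (C (u, 0) (0, p.adj s u) (0, p.adj s u)).1
        - 2 * ⟪s, (C (0, p.adj s u) (0, p.adj s u) (0, p.adj s u)).2.2⟫_ℝ)
      (‖s‖ ^ 2 * (C (0, p.adj s u) (0, p.adj s u) (0, p.adj s u)).1)
    intro t
    have h := A s u t
    rw [pair_eq, cube_expand C hC, nu] at h
    simp only [Prod.fst_add, Prod.snd_add, Prod.smul_fst, Prod.smul_snd, smul_eq_mul,
      inner_add_right, inner_smul_right] at h
    rw [← h]
    ring
  have B' : ∀ (s u y : E d),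
      2 * (C (0, y) (u, 0) (0, p.adj s u)).2.1 - 2 * ⟪s, (C (0, y) (u, 0) (u, 0)).2.2⟫_ℝ =
      (2 * (C (0, y) (u₁, 0) (0, p.adj s u₁)).2.1
        - 2 * ⟪s, (C (0, y) (u₁, 0) (u₁, 0)).2.2⟫_ℝ) * ‖u‖ ^ 2 ∧
      (C (0, y) (u, 0) (u, 0)).2.1 = (C (0, y) (u₁, 0) (u₁, 0)).2.1 * ‖u‖ ^ 2 := by
    intro s u y
    have h := poly5
      ((C (0, y) (u, 0) (u, 0)).2.1 - (C (0, y) (u₁, 0) (u₁, 0)).2.1 * ‖u‖ ^ 2)
      (2 * (C (0, y) (u, 0) (0, p.adj s u)).2.1 - 2 * ⟪s, (C (0, y) (u, 0) (u, 0)).2.2⟫_ℝ -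
      (2 * (C (0, y) (u₁, 0) (0, p.adj s u₁)).2.1
        - 2 * ⟪s, (C (0, y) (u₁, 0) (u₁, 0)).2.2⟫_ℝ) * ‖u‖ ^ 2)
      ((‖s‖ ^ 2 * (C (0, y) (u, 0) (u, 0)).1 + (C (0, y) (0, p.adj s u) (0, p.adj s u)).2.1
        - 4 * ⟪s, (C (0, y) (u, 0) (0, p.adj s u)).2.2⟫_ℝ)
        - (‖s‖ ^ 2 * (C (0, y) (u₁, 0) (u₁, 0)).1 + (C (0, y) (0, p.adj s u₁) (0, p.adj s u₁)).2.1
        - 4 * ⟪s, (C (0, y) (u₁, 0) (0, p.adj s u₁)).2.2⟫_ℝ) * ‖u‖ ^ 2)
      ((2 * ‖s‖ ^ 2 * (C (0, y) (u, 0) (0, p.adj s u)).1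
        - 2 * ⟪s, (C (0, y) (0, p.adj s u) (0, p.adj s u)).2.2⟫_ℝ)
        - (2 * ‖s‖ ^ 2 * (C (0, y) (u₁, 0) (0, p.adj s u₁)).1
        - 2 * ⟪s, (C (0, y) (0, p.adj s u₁) (0, p.adj s u₁)).2.2⟫_ℝ) * ‖u‖ ^ 2)
      ((‖s‖ ^ 2 * (C (0, y) (0, p.adj s u) (0, p.adj s u)).1)
        - (‖s‖ ^ 2 * (C (0, y) (0, p.adj s u₁) (0, p.adj s u₁)).1) * ‖u‖ ^ 2) 0 (by
        intro t
        have h := B s u (0, y) t
        rw [pair_eq, pair_eq, sq_expand C hC, sq_expand C hC, nu, nu] at h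
        simp only [Prod.fst_add, Prod.snd_add, Prod.smul_fst, Prod.smul_snd, smul_eq_mul,
          inner_add_right, inner_smul_right] at h
        linear_combination h)
    exact ⟨by linarith [h.2.1], by linarith [h.1]⟩
  -- l0
  obtain ⟨l0, hl0⟩ := exists_riesz (fun y => (C (0, y) (u₁, 0) (u₁, 0)).2.1)
    (by intro x y; simp only [lin2, hC.add]; rfl) (by intro r x; simp only [lin4, hC.smul]; rfl)
  have buuv : ∀ u v : E d, (C (u, 0) (u, 0) (0, v)).2.1 = ‖u‖ ^ 2 * ⟪l0, v⟫_ℝ := by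
    intro u v
    rw [hC.s23, hC.s12, (B' 0 u v).2, hl0 v]
    ring
  -- P30
  have Puuu : ∀ u : E d, (C (u, 0) (u, 0) (u, 0)).2.2 = (3 / 2 * ‖u‖ ^ 2) • p.mul l0 u := by
    intro u
    refine ext_inner_left ℝ fun s => ?_
    have h := (A' s u).2.1
    rw [buuv, real_inner_comm, p.inner_adj] at h
    rw [inner_smul_right]
    linarith
  -- Λ
  obtain ⟨Λ, hΛ⟩ := exists_riesz2
    (fun s y => (C (0, y) (u₁, 0) (0, p.adj s u₁)).2.1 - ⟪s, (C (0, y) (u₁, 0) (u₁, 0)).2.2⟫_ℝ)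
    (by
      intro s s' y
      simp only [p.adj_add_left, lin2, hC.add3, inner_add_left, Prod.snd_add, Prod.fst_add]
      ring)
    (by
      intro r s y
      simp only [p.adj_smul_left, lin4, hC.smul3, inner_smul_left, Prod.smul_snd, Prod.smul_fst,
        smul_eq_mul]
      simp; ring)
    (by
      intro s y y'
      simp only [lin2, hC.add, inner_add_right, Prod.snd_add, Prod.fst_add]
      ring)
    (by
      intro r s y
      simp only [lin4, hC.smul, inner_smul_right, Prod.smul_snd, Prod.smul_fst, smul_eq_mul]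
      ring)
  have Puuy : ∀ s u y : E d, ⟪s, (C (0, y) (u, 0) (u, 0)).2.2⟫_ℝ =
      (C (0, y) (u, 0) (0, p.adj s u)).2.1 - ‖u‖ ^ 2 * ⟪Λ s, y⟫_ℝ := by
    intro s u y
    have h := (B' s u y).1
    rw [← hΛ s y]
    linarith
  have key1 : ∀ u v : E d, ‖v‖ ^ 2 * (C (u, 0) (u, 0) (u, 0)).1 =
      3 * ‖u‖ ^ 2 * ((C (u, 0) (0, v) (0, v)).2.1 - 2 * ⟪Λ (p.mul v u), v⟫_ℝ) := by
    intro u v
    by_cases hu : u = 0
    · subst hu
      rw [zero1, zero1]; simp
    have h := (A' (p.mul v u) u).2.2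
    rw [p.adj_mul] at h
    have e0 : C (u, 0) (u, 0) (0, ‖u‖ ^ 2 • v) = C (0, ‖u‖ ^ 2 • v) (u, 0) (u, 0) := by
      rw [hC.s23, hC.s12]
    rw [e0, Puuy, p.adj_mul] at h
    simp only [lin4, hC.smul, hC.smul2, hC.smul3, Prod.smul_snd, Prod.smul_fst, smul_eq_mul,
      inner_smul_right] at h
    rw [hC.s12 (0, v) (u, 0), p.norm_mul] at h
    have hu2 : ‖u‖ ^ 2 ≠ 0 := pow_ne_zero 2 (norm_ne_zero_iff.mpr hu)
    have h3 : ‖u‖ ^ 2 * (‖v‖ ^ 2 * (C (u, 0) (u, 0) (u, 0)).1 -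
      3 * ‖u‖ ^ 2 * ((C (u, 0) (0, v) (0, v)).2.1 - 2 * ⟪Λ (p.mul v u), v⟫_ℝ)) = 0 := by
      rw [← h]; ring
    rcases mul_eq_zero.mp h3 with h3 | h3
    · exact absurd h3 hu2
    · linarith
  -- k0
  obtain ⟨k0, hk0⟩ := exists_riesz
    (fun u => (C (u, 0) (0, u₁) (0, u₁)).2.1 - 2 * ⟪Λ (p.mul u₁ u), u₁⟫_ℝ)
    (by
      intro x y
      simp only [lin1, hC.add, map_add, inner_add_left, Prod.snd_add, Prod.fst_add]
      ring)
    (by
      intro r x
      simp only [lin3, hC.smul, map_smul, inner_smul_left, Prod.smul_snd, Prod.smul_fst,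
        smul_eq_mul]
      simp; ring)
  have auuu : ∀ u : E d, (C (u, 0) (u, 0) (u, 0)).1 = 3 * ‖u‖ ^ 2 * ⟪k0, u⟫_ℝ := by
    intro u
    have h := key1 u u₁
    rw [hu₁] at h
    rw [← hk0 u]
    linarith
  have buvv : ∀ u v : E d, (C (u, 0) (0, v) (0, v)).2.1 =
      2 * ⟪Λ (p.mul v u), v⟫_ℝ + ‖v‖ ^ 2 * ⟪k0, u⟫_ℝ := by
    intro u v
    by_cases hu : u = 0
    · subst hu
      rw [zero1]; simp
    have h := key1 u v
    rw [auuu] at h
    have hu2 : ‖u‖ ^ 2 ≠ 0 := pow_ne_zero 2 (norm_ne_zero_iff.mpr hu)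
    have h3 : ‖u‖ ^ 2 * ((C (u, 0) (0, v) (0, v)).2.1 - (2 * ⟪Λ (p.mul v u), v⟫_ℝ + ‖v‖ ^ 2 * ⟪k0, u⟫_ℝ)) = 0 := by
      linarith
    rcases mul_eq_zero.mp h3 with h3 | h3
    · exact absurd h3 hu2
    · linarith
  -- C_V
  obtain ⟨CV, hCV⟩ := exists_riesz2 (fun q v => 2 * ⟪Λ q, v⟫_ℝ + ⟪q, p.mul v k0⟫_ℝ)
    (by intro x x' y; simp only [map_add, inner_add_left]; ring)
    (by intro r x y; simp only [map_smul, inner_smul_left]; simp; ring)
    (by intro z x y; simp only [map_add, inner_add_right, _root_.add_apply]; ring)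
    (by intro r z x; simp only [map_smul, inner_smul_right, _root_.smul_apply]; ring)
  have buvv' : ∀ u v : E d, (C (u, 0) (0, v) (0, v)).2.1 = ⟪CV (p.mul v u), v⟫_ℝ := by
    intro u v
    rw [buvv, ← hCV, p.inner_mul_mul_left, real_inner_comm k0 u]
  have buvy : ∀ u v y : E d, (C (u, 0) (0, v) (0, y)).2.1 =
      (1 / 2) * (⟪CV (p.mul v u), y⟫_ℝ + ⟪CV (p.mul y u), v⟫_ℝ) := by
    intro u v y
    have h := buvv' u (v + y)
    simp only [lin2, hC.add2, hC.add3, Prod.snd_add, Prod.fst_add, map_add, _root_.add_apply,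
      inner_add_left, inner_add_right] at h
    rw [buvv', buvv', hC.s23 (u, 0) (0, y) (0, v)] at h
    linarith
  refine ⟨k0, l0, CV, fun u => ?_, buuv, fun u v => ?_, buvv'⟩
  · exact Prod.ext (auuu u) (Prod.ext (A' 0 u).1 (Puuu u))
  · refine ext_inner_left ℝ fun s => ?_
    rw [hC.s23, hC.s12, Puuy, hC.s12, buvy, p.mul_adj]
    rw [map_smul, inner_smul_left, ← hCV, inner_smul_right, inner_add_right, inner_smul_right]
    rw [← p.inner_adj s u (CV (p.mul v u)), hCV, real_inner_comm (p.adj s u), ← hCV]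
    simp
    ring


/-! ### the swap -/

/-- swap of the two factors of `T` -/
def swT (x : T d) : T d := (x.2, x.1)

/-- swap of the first two components of `N` -/
def swN (X : N d) : N d := (X.2.1, X.1, X.2.2)

/-- the opposite product -/
def NProd.op (p : NProd d) : NProd d where
  mul := p.mul.flip
  norm_mul := by
    intro v u
    rw [ContinuousLinearMap.flip_apply, p.norm_mul, mul_comm]

theorem NProd.op_mul (p : NProd d) (u v : E d) : p.op.mul u v = p.mul v u := rfl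

theorem Q0_op (p : NProd d) (x y : T d) : Q0 p.op x y = swN (Q0 p (swT x) (swT y)) := by
  simp only [Q0_apply, swN, swT, NProd.op_mul]
  rw [add_comm]

/-- the swapped trilinear function -/
def opC (C : T d → T d → T d → N d) : T d → T d → T d → N d :=
  fun x y z => swN (C (swT x) (swT y) (swT z))

theorem SymTri.op {C : T d → T d → T d → N d} (hC : SymTri C) : SymTri (opC C) where
  add x x' y z := by
    have : swT (x + x') = swT x + swT x' := rfl
    simp only [opC, this, hC.add]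
    rfl
  smul r x y z := by
    have : swT (r • x) = r • swT x := rfl
    simp only [opC, this, hC.smul]
    rfl
  s12 x y z := by simp only [opC, hC.s12 (swT x)]
  s23 x y z := by simp only [opC, hC.s23 (swT x)]

/-- the swap as a continuous linear map -/
def swNL : N d →L[ℝ] N d := LinearMap.toContinuousLinearMap
  { toFun := swN, map_add' := fun _ _ => rfl, map_smul' := fun _ _ => rfl }

theorem NC.op {p : NProd d} {C : T d → T d → T d → N d} (h : NC p C) : NC p.op (opC C) := by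
  intro ν
  obtain ⟨l, hl⟩ := h (ν.comp swNL)
  refine ⟨fun z => l (swT z), fun z η η' h1 h2 => ?_⟩
  have h3 := hl (swT z) (swT η) (swT η') ?_ ?_
  · show ν (swN (C (swT z) (swT η) (swT η'))) = _
    rw [show ν (swN (C (swT z) (swT η) (swT η'))) = (ν.comp swNL) (C (swT z) (swT η) (swT η')) from rfl,
      h3]
    simp only [swT]
    ring
  · intro ξ
    have := h1 (swT ξ)
    rw [Q0_op] at this
    exact this
  · intro ξ
    have := h2 (swT ξ)
    rw [Q0_op] at this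
    exact this

theorem Q0_self (p : NProd d) (u v : E d) :
    Q0 p (u, v) (u, v) = (‖u‖ ^ 2, ‖v‖ ^ 2, p.mul v u) := by
  rw [Q0_apply]
  simp only [real_inner_self_eq_norm_sq]
  refine Prod.ext rfl (Prod.ext rfl ?_)
  show (1 / 2 : ℝ) • (p.mul v u + p.mul v u) = _
  module

theorem Q0_symm' (p : NProd d) (x y : T d) : Q0 p x y = Q0 p y x := by
  simp only [Q0_apply, real_inner_comm, add_comm]

/-- two symmetric trilinear functions with the same diagonal agree -/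
theorem polar3 (C D : T d → T d → T d → N d) (hC : SymTri C) (hD : SymTri D)
    (h : ∀ x, C x x x = D x x x) (x y z : T d) : C x y z = D x y z := by
  have six : ∀ (C : T d → T d → T d → N d), SymTri C → ∀ x y z,
      (6 : ℝ) • C x y z = C (x + y + z) (x + y + z) (x + y + z) - C (x + y) (x + y) (x + y)
        - C (x + z) (x + z) (x + z) - C (y + z) (y + z) (y + z) + C x x x + C y y y + C z z z := by
    intro C hC x y z
    simp only [hC.add, hC.add2, hC.add3]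
    rw [hC.s12 y x x, hC.s23 x y x, hC.s12 z x x, hC.s23 x z x, hC.s12 y x y, hC.s23 y y x,
      hC.s12 y x y, hC.s12 z x z, hC.s23 z z x, hC.s12 z x z, hC.s12 z y y, hC.s23 y z y,
      hC.s12 z y z, hC.s23 z z y, hC.s12 z y z,
      hC.s23 x z y, hC.s12 y x z, hC.s23 y z x, hC.s12 y x z, hC.s12 z x y, hC.s23 x z y,
      hC.s23 z y x, hC.s12 z x y, hC.s23 x z y]
    module
  have h6 : (6 : ℝ) • C x y z = (6 : ℝ) • D x y z := by
    rw [six C hC, six D hD]
    simp only [h]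
  exact smul_right_injective (N d) (by norm_num : (6 : ℝ) ≠ 0) h6

theorem symTri_Tri (p : NProd d) (c : N d →L[ℝ] T d) : SymTri (Tri (Q0 p) c) where
  add x x' y z := by
    simp only [Tri, map_add, _root_.add_apply]
    abel
  smul r x y z := by
    simp only [Tri, map_smul, _root_.smul_apply, smul_add]
  s12 x y z := by
    simp only [Tri]
    rw [Q0_symm' p y z, Q0_symm' p z x, Q0_symm' p x y]
    abel
  s23 x y z := by
    simp only [Tri]
    rw [Q0_symm' p y z, Q0_symm' p z x, Q0_symm' p x y]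
    abel

theorem tri_exists_Q0 (hd : 2 ≤ d) (p : NProd d) (C : T d →L[ℝ] T d →L[ℝ] T d →L[ℝ] N d)
    (h12 : ∀ x y z, C x y z = C y x z) (h23 : ∀ x y z, C x y z = C x z y) (hN : NCond p C) :
    ∃ c : N d →L[ℝ] T d, ∀ x y z, C x y z = Tri (Q0 p) c x y z := by
  have hC : SymTri (fun x y z => C x y z) :=
    ⟨by intros; simp only [map_add, _root_.add_apply],
     by intros; simp only [map_smul, _root_.smul_apply], h12, h23⟩
  have hN' : NC p (fun x y z => C x y z) := hN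
  obtain ⟨k0, l0, CV, a1, a2, a3, a4⟩ := half hd p _ hC hN'
  obtain ⟨m0, k1, CU, b1, b2, b3, b4⟩ := half hd p.op _ hC.op hN'.op
  simp only [opC, swT, swN, NProd.op_mul] at a1 a2 a3 a4 b1 b2 b3 b4
  let c : N d →L[ℝ] T d := LinearMap.toContinuousLinearMap
    { toFun := fun X => (X.1 • k0 + X.2.1 • k1 + CU X.2.2, X.1 • l0 + X.2.1 • m0 + CV X.2.2)
      map_add' := by
        intro X Y
        refine Prod.ext ?_ ?_
        · simp only [Prod.fst_add, Prod.snd_add, map_add]; module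
        · simp only [Prod.fst_add, Prod.snd_add, map_add]; module
      map_smul' := by
        intro r X
        refine Prod.ext ?_ ?_
        · simp only [Prod.smul_fst, Prod.smul_snd, map_smul, smul_eq_mul, RingHom.id_apply]; module
        · simp only [Prod.smul_fst, Prod.smul_snd, map_smul, smul_eq_mul, RingHom.id_apply]; module }
  have hc : ∀ X : N d, c X = (X.1 • k0 + X.2.1 • k1 + CU X.2.2, X.1 • l0 + X.2.1 • m0 + CV X.2.2) :=
    fun X => rfl
  refine ⟨c, polar3 _ _ hC (symTri_Tri p c) ?_⟩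
  rintro ⟨u, v⟩
  have hsplit : ((u, v) : T d) = (u, 0) + (1 : ℝ) • ((0, v) : T d) := by simp
  have e1 : (C (u, v) (u, v) (u, v) : N d) = C (u, 0) (u, 0) (u, 0)
      + (3 : ℝ) • C (u, 0) (u, 0) (0, v) + (3 : ℝ) • C (u, 0) (0, v) (0, v)
      + C (0, v) (0, v) (0, v) := by
    have := cube_expand _ hC (u, 0) (0, v) 1
    rw [← hsplit] at this
    rw [this]
    norm_num
  have e2 : Tri (Q0 p) c (u, v) (u, v) (u, v) =
      (3 : ℝ) • Q0 p (u, v) (c (‖u‖ ^ 2, ‖v‖ ^ 2, p.mul v u)) := by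
    simp only [Tri, Q0_self]; module
  show C (u, v) (u, v) (u, v) = _
  rw [e1, e2, hc]
  have f1 : C (0, v) (u, 0) (u, 0) = C (u, 0) (u, 0) (0, v) := by rw [h12, h23]
  have f2 : C (0, v) (0, v) (u, 0) = C (u, 0) (0, v) (0, v) := by rw [h23, h12]
  have a1' := a1 u
  have b1' := b1 v
  have b11 := congrArg (fun X : N d => X.1) b1'
  have b12 := congrArg (fun X : N d => X.2.1) b1'
  have b13 := congrArg (fun X : N d => X.2.2) b1'
  simp only at b11 b12 b13
  have b4' := b4 v u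
  have b2' := b2 v u
  have b3' := b3 v u
  rw [f1] at b4'
  rw [f2] at b2' b3'
  refine Prod.ext ?_ (Prod.ext ?_ ?_)
  · simp only [Prod.fst_add, Prod.smul_fst, Q0_apply, smul_eq_mul]
    rw [a1', b4', b2', b12]
    simp only [inner_add_right, inner_smul_right]
    rw [real_inner_comm u k0, real_inner_comm u k1, real_inner_comm u]
    ring
  · simp only [Prod.fst_add, Prod.snd_add, Prod.smul_fst, Prod.smul_snd, Q0_apply, smul_eq_mul]
    rw [a1', a2, a4, b11]
    simp only [inner_add_right, inner_smul_right]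
    rw [real_inner_comm v l0, real_inner_comm v m0, real_inner_comm v]
    ring
  · simp only [Prod.snd_add, Prod.smul_snd, Q0_apply]
    rw [a1', a3, b3', b13]
    simp only [map_add, map_smul, _root_.add_apply, _root_.smul_apply]
    module


theorem mul_eq_zero_iff' (p : NProd d) (v u : E d) (h : p.mul v u = 0) : v = 0 ∨ u = 0 := by
  have h1 := p.norm_mul v u
  rw [h, norm_zero] at h1
  rcases mul_eq_zero.mp h1.symm with h2 | h2
  · exact Or.inl (norm_eq_zero.mp h2)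
  · exact Or.inr (norm_eq_zero.mp h2)

theorem tri_unique_Q0 (hd : 1 ≤ d) (p : NProd d) (c : N d →L[ℝ] T d)
    (h : ∀ x, Q0 p x (c (Q0 p x x)) = 0) : c = 0 := by
  obtain ⟨u₁, hu₁⟩ := exists_unit (d := d) hd
  have hu₁0 : u₁ ≠ 0 := by
    intro h0; rw [h0, norm_zero] at hu₁; exact zero_ne_one hu₁
  have half_zero : ∀ w : E d, (1 / 2 : ℝ) • w = 0 → w = 0 := fun w hw =>
    (smul_eq_zero.mp hw).resolve_left (by norm_num)
  have comp : ∀ (x : T d) (X : T d), Q0 p x X = 0 → ⟪x.1, X.1⟫_ℝ = 0 ∧ ⟪x.2, X.2⟫_ℝ = 0 ∧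
      p.mul x.2 X.1 + p.mul X.2 x.1 = 0 := by
    intro x X hX
    rw [Q0_apply] at hX
    exact ⟨congrArg Prod.fst hX, congrArg (fun X : N d => X.2.1) hX,
      half_zero _ (congrArg (fun X : N d => X.2.2) hX)⟩
  -- `c (1,0,0) = 0`
  have hc1 : c (1, 0, 0) = 0 := by
    have key : ∀ u : E d, Q0 p (u, 0) (c (‖u‖ ^ 2, 0, 0)) = 0 := by
      intro u
      have := h (u, 0)
      rw [Q0_self] at this
      simpa using this
    have k2 : ∀ u : E d, u ≠ 0 → Q0 p (u, 0) (c (1, 0, 0)) = 0 := by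
      intro u hu
      have h1 := key u
      have h2 : ((‖u‖ ^ 2, 0, 0) : N d) = (‖u‖ ^ 2 : ℝ) • ((1, 0, 0) : N d) := by simp
      rw [h2, map_smul, map_smul] at h1
      exact (smul_eq_zero.mp h1).resolve_left (pow_ne_zero 2 (norm_ne_zero_iff.mpr hu))
    have k3 := comp _ _ (k2 u₁ hu₁0)
    refine Prod.ext ?_ ?_
    · have : ∀ u, ⟪u, (c (1, 0, 0)).1⟫_ℝ = 0 := by
        intro u
        by_cases hu : u = 0
        · rw [hu, inner_zero_left]
        · exact (comp _ _ (k2 u hu)).1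
      exact inner_self_eq_zero.mp (this _)
    · have h3 := k3.2.2
      simp only [map_zero, _root_.zero_apply, zero_add] at h3
      exact (mul_eq_zero_iff' p _ _ h3).resolve_right hu₁0
  have hc2 : c (0, 1, 0) = 0 := by
    have key : ∀ u : E d, Q0 p (0, u) (c (0, ‖u‖ ^ 2, 0)) = 0 := by
      intro u
      have := h (0, u)
      rw [Q0_self] at this
      simpa using this
    have k2 : ∀ u : E d, u ≠ 0 → Q0 p (0, u) (c (0, 1, 0)) = 0 := by
      intro u hu
      have h1 := key u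
      have h2 : ((0, ‖u‖ ^ 2, 0) : N d) = (‖u‖ ^ 2 : ℝ) • ((0, 1, 0) : N d) := by simp
      rw [h2, map_smul, map_smul] at h1
      exact (smul_eq_zero.mp h1).resolve_left (pow_ne_zero 2 (norm_ne_zero_iff.mpr hu))
    have k3 := comp _ _ (k2 u₁ hu₁0)
    refine Prod.ext ?_ ?_
    · have h3 := k3.2.2
      simp only [map_zero, add_zero] at h3
      exact (mul_eq_zero_iff' p _ _ h3).resolve_left hu₁0
    · have : ∀ u, ⟪u, (c (0, 1, 0)).2⟫_ℝ = 0 := by
        intro u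
        by_cases hu : u = 0
        · rw [hu, inner_zero_left]
        · exact (comp _ _ (k2 u hu)).2.1
      exact inner_self_eq_zero.mp (this _)
  have hsplit : ∀ X : N d, c X = c (0, 0, X.2.2) := by
    intro X
    have : X = X.1 • ((1, 0, 0) : N d) + X.2.1 • ((0, 1, 0) : N d) + (0, 0, X.2.2) := by
      refine Prod.ext ?_ (Prod.ext ?_ ?_) <;> simp
    conv_lhs => rw [this]
    rw [map_add, map_add, map_smul, map_smul, hc1, hc2]
    simp
  have key : ∀ u v : E d, p.mul v (c (0, 0, p.mul v u)).1 + p.mul (c (0, 0, p.mul v u)).2 u = 0 := by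
    intro u v
    have h1 := h (u, v)
    rw [Q0_self, hsplit] at h1
    exact (comp _ _ h1).2.2
  have key2 : ∀ u v : E d, p.mul v (c (0, 0, p.mul v u)).1 = 0 ∧
      p.mul (c (0, 0, p.mul v u)).2 u = 0 := by
    intro u v
    have h1 := key u v
    have h2 := key (-u) v
    have h3 : ((0, 0, p.mul v (-u)) : N d) = -((0, 0, p.mul v u) : N d) := by simp
    rw [h3, map_neg] at h2
    simp only [Prod.fst_neg, Prod.snd_neg, map_neg, _root_.neg_apply, neg_neg] at h2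
    constructor
    · apply half_zero
      have : (1 / 2 : ℝ) • p.mul v (c (0, 0, p.mul v u)).1 = (1 / 4 : ℝ) •
        ((p.mul v (c (0, 0, p.mul v u)).1 + p.mul (c (0, 0, p.mul v u)).2 u)
        - (-p.mul v (c (0, 0, p.mul v u)).1 + p.mul (c (0, 0, p.mul v u)).2 u)) := by module
      rw [this, h1, h2]; simp
    · apply half_zero
      have : (1 / 2 : ℝ) • p.mul (c (0, 0, p.mul v u)).2 u = (1 / 4 : ℝ) •
        ((p.mul v (c (0, 0, p.mul v u)).1 + p.mul (c (0, 0, p.mul v u)).2 u)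
        + (-p.mul v (c (0, 0, p.mul v u)).1 + p.mul (c (0, 0, p.mul v u)).2 u)) := by module
      rw [this, h1, h2]; simp
  refine ContinuousLinearMap.ext fun X => ?_
  rw [hsplit X]
  obtain ⟨v, hv⟩ := p.surj u₁ hu₁0 X.2.2
  rw [← hv]
  refine Prod.ext ?_ ?_
  · rcases mul_eq_zero_iff' p _ _ (key2 u₁ v).1 with h0 | h0
    · have h5 : ((0, 0, p.mul v u₁) : N d) = 0 := by rw [h0]; simp
      rw [h5, map_zero]; simp
    · exact h0
  · exact (mul_eq_zero_iff' p _ _ (key2 u₁ v).2).resolve_right hu₁0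

end Pool.Agent.KP
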