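import Mathlib

/-!
# Tight embeddings of projective planes: common definitions (MP_3b4c52_gt, helper69)
-/

open scoped Manifold ContDiff InnerProductSpace Quaternion Topology Matrix
open CategoryTheory

noncomputable section

namespace Pool.Agent.KP

/-! ## Linear models -/

/-- Euclidean `n`-space. -/
abbrev E (n : ℕ) := EuclideanSpace ℝ (Fin n)

/-- the model tangent space, of dimension `2d`. -/
abbrev T (d : ℕ) := E d × E d

/-- the model normal space, of dimension `d+2`. -/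
abbrev N (d : ℕ) := ℝ × ℝ × E d

/-- the model ambient (projective) space, of dimension `3d+3`. -/
abbrev W (d : ℕ) := ℝ × T d × N d

/-- A normed product `E d × E d → E d`. -/
structure NProd (d : ℕ) where
  mul : E d →L[ℝ] E d →L[ℝ] E d
  norm_mul : ∀ v u, ‖mul v u‖ = ‖v‖ * ‖u‖

/-- the adjoint of `v ↦ mul v u`, applied to `s`: `⟪p.adj s u, v⟫ = ⟪s, p.mul v u⟫`. -/
def NProd.adj {d : ℕ} (p : NProd d) (s u : E d) : E d :=
  ContinuousLinearMap.adjoint (p.mul.flip u) s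

theorem NProd.inner_adj {d : ℕ} (p : NProd d) (s u v : E d) :
    ⟪p.adj s u, v⟫_ℝ = ⟪s, p.mul v u⟫_ℝ := by
  simp [NProd.adj, ContinuousLinearMap.adjoint_inner_left]

/-- The model second fundamental form
`Q0 ξ η = (⟪ξ₁,η₁⟫, ⟪ξ₂,η₂⟫, (ξ₂·η₁ + η₂·ξ₁)/2)`; so `Q0 (u,v) (u,v) = (|u|²,|v|²,v·u)`. -/
def Q0 {d : ℕ} (p : NProd d) : T d →L[ℝ] T d →L[ℝ] N d :=
  LinearMap.toContinuousBilinearMap
    (LinearMap.mk₂ ℝ
      (fun ξ η : T d => ((⟪ξ.1, η.1⟫_ℝ, ⟪ξ.2, η.2⟫_ℝ,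
        (1/2 : ℝ) • (p.mul ξ.2 η.1 + p.mul η.2 ξ.1)) : N d))
      (by intro a b c; simp [inner_add_left]; module)
      (by intro r a b; simp [inner_smul_left]; module)
      (by intro a b c; simp [inner_add_right]; module)
      (by intro r a b; simp [inner_smul_right]; module))

theorem Q0_apply {d : ℕ} (p : NProd d) (ξ η : T d) :
    Q0 p ξ η = (⟪ξ.1, η.1⟫_ℝ, ⟪ξ.2, η.2⟫_ℝ,
        (1/2 : ℝ) • (p.mul ξ.2 η.1 + p.mul η.2 ξ.1)) := rfl

/-- A `N`-valued bilinear form on `T` is *standard* if it is linearly equivalent to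
`Q0 p` for some normed product `p`. -/
def Std {d : ℕ} (Q : T d →L[ℝ] T d →L[ℝ] N d) : Prop :=
  ∃ (p : NProd d) (A : N d ≃L[ℝ] N d) (B : T d ≃L[ℝ] T d),
    ∀ ξ η, Q ξ η = A (Q0 p (B ξ) (B η))

/-- the cyclic sum `Q(x,cQ(y,z)) + Q(y,cQ(z,x)) + Q(z,cQ(x,y))`. -/
def Tri {d : ℕ} (Q : T d →L[ℝ] T d →L[ℝ] N d) (c : N d →L[ℝ] T d) (x y z : T d) : N d :=
  Q x (c (Q y z)) + Q y (c (Q z x)) + Q z (c (Q x y))

/-- the symmetry condition on fourth order data. -/
def Sym4 {d : ℕ} (Q : T d →L[ℝ] T d →L[ℝ] N d) (e : T d →L[ℝ] N d →L[ℝ] T d) : Prop :=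
  ∀ θ ξ η ζ, Q ξ (e θ (Q η ζ)) + Q η (e θ (Q ζ ξ)) + Q ζ (e θ (Q ξ η))
           = Q θ (e ξ (Q η ζ)) + Q η (e ξ (Q ζ θ)) + Q ζ (e ξ (Q θ η))

/-- second derivative as a bilinear map. -/
abbrev D2 {d : ℕ} (F : T d → N d) (x : T d) : T d →L[ℝ] T d →L[ℝ] N d :=
  fderiv ℝ (fderiv ℝ F) x

/-- The closed first order system satisfied by `(F, DF, D²F, c, e)` on the ball of radius `r`. -/
structure IsSys {d : ℕ} (F : T d → N d) (c : T d → (N d →L[ℝ] T d))
    (e : T d → (T d →L[ℝ] N d →L[ℝ] T d)) (r : ℝ) : Prop where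
  dF : ∀ x ∈ Metric.ball (0 : T d) r, DifferentiableAt ℝ F x
  dF1 : ∀ x ∈ Metric.ball (0 : T d) r, DifferentiableAt ℝ (fderiv ℝ F) x
  dF2 : ∀ x ∈ Metric.ball (0 : T d) r, DifferentiableAt ℝ (D2 F) x
  symm : ∀ x ∈ Metric.ball (0 : T d) r, ∀ ξ η, D2 F x ξ η = D2 F x η ξ
  dc : ∀ x ∈ Metric.ball (0 : T d) r, DifferentiableAt ℝ c x
  de : ∀ x ∈ Metric.ball (0 : T d) r, DifferentiableAt ℝ e x
  eqQ : ∀ x ∈ Metric.ball (0 : T d) r, ∀ ζ ξ η,
    fderiv ℝ (D2 F) x ζ ξ η = Tri (D2 F x) (c x) ζ ξ η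
  eqc : ∀ x ∈ Metric.ball (0 : T d) r, ∀ ζ X,
    fderiv ℝ c x ζ X = e x ζ X - c x (D2 F x ζ (c x X))
  eqe : ∀ x ∈ Metric.ball (0 : T d) r, ∀ ζ η X,
    fderiv ℝ e x ζ η X = - c x (D2 F x (e x η X) ζ) + e x (c x (D2 F x η ζ)) X
      - e x η (D2 F x ζ (c x X))
  sym4 : ∀ x ∈ Metric.ball (0 : T d) r, Sym4 (D2 F x) (e x)

/-! ## Mod 2 singular chains, concretely -/

/-- mod 2 singular chains of degree `n`. -/
abbrev Ch (X : Type*) [TopologicalSpace X] (n : ℕ) :=
  C(stdSimplex ℝ (Fin (n + 1)), X) →₀ ZMod 2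

/-- the `i`-th face `Δⁿ → Δⁿ⁺¹`. -/
def face (n : ℕ) (i : Fin (n + 2)) :
    C(stdSimplex ℝ (Fin (n + 1)), stdSimplex ℝ (Fin (n + 2))) :=
  ⟨stdSimplex.map (Fin.succAbove i), stdSimplex.continuous_map _⟩

/-- the boundary of mod 2 singular chains. -/
def bd {X : Type*} [TopologicalSpace X] (n : ℕ) : Ch X (n + 1) →ₗ[ZMod 2] Ch X n :=
  Finsupp.linearCombination (ZMod 2)
    (fun σ => ∑ i : Fin (n + 2), Finsupp.single (σ.comp (face n i)) (1 : ZMod 2))

/-- the chains lying in a subset. -/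
def chIn {X : Type*} [TopologicalSpace X] (A : Set X) (n : ℕ) : Submodule (ZMod 2) (Ch X n) :=
  Finsupp.supported (ZMod 2) (ZMod 2) {σ | Set.range σ ⊆ A}

/-- `Hₙ(A) → Hₙ(X)` is injective, at chain level: an `n`-chain in `A` which is a boundary
in `X` is a boundary in `A`. -/
def InjIn {X : Type*} [TopologicalSpace X] (A : Set X) (n : ℕ) : Prop :=
  ∀ z ∈ chIn A n, (∃ w : Ch X (n + 1), bd n w = z) → ∃ w ∈ chIn A (n + 1), bd n w = z

/-- `Hₙ(X) = 0` for a positive degree `n = k + 1`, at chain level. -/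
def VanishesIn (X : Type*) [TopologicalSpace X] (k : ℕ) : Prop :=
  ∀ z : Ch X (k + 1), bd k z = 0 → ∃ w : Ch X (k + 2), bd (k + 1) w = z

/-- `H₀(X)` has rank one, at chain level: any two points differ by a boundary. -/
def ConnIn (X : Type*) [TopologicalSpace X] : Prop :=
  ∀ p q : X, ∃ w : Ch X 1, bd 0 w =
    Finsupp.single (ContinuousMap.const _ p) 1 + Finsupp.single (ContinuousMap.const _ q) 1

/-! ## Tight maps (Mathlib's singular homology) -/

/-- Singular homology with `ℤ/2` coefficients (Mathlib). -/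
abbrev H2 (n : ℕ) : TopCat.{0} ⥤ ModuleCat.{0} (ZMod 2) :=
  (AlgebraicTopology.singularHomologyFunctor (ModuleCat.{0} (ZMod 2)) n).obj
    (ModuleCat.of (ZMod 2) (ZMod 2))

/-- The map induced in `Hₙ( · ; ℤ/2)` by the inclusion of a subset. -/
abbrev H2incl {X : Type} [TopologicalSpace X] (A : Set X) (n : ℕ) :
    (H2 n).obj (TopCat.of A) ⟶ (H2 n).obj (TopCat.of X) :=
  (H2 n).map (TopCat.ofHom (⟨Subtype.val, continuous_subtype_val⟩ : C(A, X)))

/-- `f` is tight: for every closed half space `h` the inclusion `f⁻¹(h) ⊆ M` induces an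
injection in `ℤ/2`-homology. -/
def Tight {M : Type} [TopologicalSpace M] {n : ℕ} (f : M → E n) : Prop :=
  ∀ (a : E n) (b : ℝ), a ≠ 0 → ∀ i : ℕ,
    Function.Injective (H2incl {p : M | ⟪a, f p⟫_ℝ ≤ b} i)

/-- `f` is substantial: its image lies in no affine hyperplane. -/
def Substantial {M : Type} {n : ℕ} (f : M → E n) : Prop :=
  ∀ (a : E n) (b : ℝ), a ≠ 0 → ∃ p : M, ⟪a, f p⟫_ℝ ≠ b

/-- `M` (of dimension `2d`) is like a projective plane: `β₀ = β_d = β_{2d} = 1`, and all other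
`ℤ/2` Betti numbers vanish. -/
def LikeProjPlane (d : ℕ) (M : Type) [TopologicalSpace M] : Prop :=
  ∀ i : ℕ, Module.rank (ZMod 2) ((H2 i).obj (TopCat.of M))
    = if i = 0 ∨ i = d ∨ i = 2 * d then 1 else 0

/-- smooth embedding of a compact manifold: smooth, injective, injective differentials. -/
def SmoothEmb (m : ℕ) {n : ℕ} {M : Type} [TopologicalSpace M] [ChartedSpace (E m) M]
    (f : M → E n) : Prop :=
  ContMDiff (𝓡 m) 𝓘(ℝ, E n) ∞ f ∧ Function.Injective f ∧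
    ∀ p : M, Function.Injective (mfderiv (𝓡 m) 𝓘(ℝ, E n) f p)

/-! ## The standard models -/

section Herm

variable (K : Type) [AddCommGroup K] [Module ℝ K] [Mul K] [One K] [StarAddMonoid K] [StarModule ℝ K]

/-- The real vector space of Hermitian `3 × 3` matrices over `K`. -/
def Herm3 : Submodule ℝ (Matrix (Fin 3) (Fin 3) K) where
  carrier := {X | X.conjTranspose = X}
  add_mem' := by
    intro a b ha hb
    simp only [Set.mem_ofPred_eq] at *
    rw [Matrix.conjTranspose_add, ha, hb]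
  zero_mem' := by simp
  smul_mem' := by
    intro r a ha
    simp only [Set.mem_ofPred_eq] at *
    rw [Matrix.conjTranspose_smul, ha]
    simp

/-- The standard model `V(K) = {X ∈ Herm₃(K) : X² = X, tr X = 1}`. -/
def VK : Set (Herm3 K) :=
  {X | (X : Matrix (Fin 3) (Fin 3) K) * (X : Matrix (Fin 3) (Fin 3) K) = X ∧
    (X : Matrix (Fin 3) (Fin 3) K).trace = 1}

end Herm

/-- `S ⊆ E n` is the image of `V(K)` under a real projective transformation: there is a linear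
isomorphism `G : Herm₃(K) → ℝ × E n` which maps the lines of `V(K)` to lines not at infinity
and `S` is the resulting set in the affine chart `{1} × E n`. -/
def IsProjImage (K : Type) [AddCommGroup K] [Module ℝ K] [Mul K] [One K] [StarAddMonoid K]
    [StarModule ℝ K] {n : ℕ} (S : Set (E n)) : Prop :=
  ∃ G : Herm3 K ≃ₗ[ℝ] (ℝ × E n), (∀ X ∈ VK K, (G X).1 ≠ 0) ∧
    S = (fun X => (G X).1⁻¹ • (G X).2) '' VK K

instance : StarModule ℝ ℍ[ℝ] := ⟨fun r x => by rw [Quaternion.star_smul]; simp⟩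

/-- The octonions, by the Cayley–Dickson construction on Hamilton's quaternions. -/
def Oct := WithLp 2 (ℍ[ℝ] × ℍ[ℝ])

namespace Oct
instance : NormedAddCommGroup Oct := inferInstanceAs (NormedAddCommGroup (WithLp 2 (ℍ[ℝ] × ℍ[ℝ])))
instance : InnerProductSpace ℝ Oct := inferInstanceAs (InnerProductSpace ℝ (WithLp 2 (ℍ[ℝ] × ℍ[ℝ])))
/-- the pair `(a, b)` -/
def mk (a b : ℍ[ℝ]) : Oct := WithLp.toLp 2 (a, b)
/-- first component -/
def re (x : Oct) : ℍ[ℝ] := (WithLp.ofLp (p := 2) (V := ℍ[ℝ] × ℍ[ℝ]) x).1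
/-- second component -/
def im (x : Oct) : ℍ[ℝ] := (WithLp.ofLp (p := 2) (V := ℍ[ℝ] × ℍ[ℝ]) x).2

@[simp] theorem re_mk (a b : ℍ[ℝ]) : (mk a b).re = a := rfl
@[simp] theorem im_mk (a b : ℍ[ℝ]) : (mk a b).im = b := rfl
@[simp] theorem re_add (x y : Oct) : (x + y).re = x.re + y.re := rfl
@[simp] theorem im_add (x y : Oct) : (x + y).im = x.im + y.im := rfl
@[simp] theorem re_smul (r : ℝ) (x : Oct) : (r • x).re = r • x.re := rfl
@[simp] theorem im_smul (r : ℝ) (x : Oct) : (r • x).im = r • x.im := rfl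
@[ext] theorem ext {x y : Oct} (h1 : x.re = y.re) (h2 : x.im = y.im) : x = y := by
  apply (WithLp.equiv 2 (ℍ[ℝ] × ℍ[ℝ])).injective
  exact Prod.ext h1 h2

/-- Cayley–Dickson multiplication `(a,b)(c,d) = (ac - d̄b, da + bc̄)`. -/
instance : Mul Oct := ⟨fun x y => mk (x.re * y.re - star y.im * x.im) (y.im * x.re + x.im * star y.re)⟩
instance : One Oct := ⟨mk 1 0⟩
/-- conjugation `(a,b) ↦ (ā, -b)` -/
instance : StarAddMonoid Oct where
  star x := mk (star x.re) (- x.im)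
  star_involutive := by
    intro x; ext1 <;> simp
  star_add := by
    intro x y; ext1
    · show star (x + y).re = _
      simp
    · show -(x + y).im = _
      rw [im_add, neg_add]; rfl
instance : StarModule ℝ Oct where
  star_smul := by
    intro r x
    ext1
    · show star (r • x).re = _
      rw [re_smul, star_smul]; rfl
    · show -(r • x).im = _
      rw [im_smul, ← smul_neg]; rfl

theorem mul_def (x y : Oct) :
    x * y = mk (x.re * y.re - star y.im * x.im) (y.im * x.re + x.im * star y.re) := rfl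
theorem one_def : (1 : Oct) = mk 1 0 := rfl
theorem star_def (x : Oct) : star x = mk (star x.re) (- x.im) := rfl
end Oct

end Pool.Agent.KP
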