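import Pool.Agent.Lib_helper69.KP.Defs

/-!
# More common definitions (MP_3b4c52_gt, helper69): charts, tops, composition algebras, cones
-/

open scoped Manifold ContDiff InnerProductSpace Quaternion Topology Matrix

noncomputable section

namespace Pool.Agent.KP

/-- the null functional condition satisfied by third derivatives: for every functional `ν`,
the form `ν (C z · ·)` is, on the kernel of `ν ∘ Q0`, a multiple of the standard inner product -/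
def NCond {d : ℕ} (p : NProd d) (C : T d →L[ℝ] T d →L[ℝ] T d →L[ℝ] N d) : Prop :=
  ∀ ν : N d →L[ℝ] ℝ, ∃ l : T d → ℝ, ∀ z η η' : T d,
    (∀ ξ, ν (Q0 p η ξ) = 0) → (∀ ξ, ν (Q0 p η' ξ) = 0) →
      ν (C z η η') = l z * (⟪η.1, η'.1⟫_ℝ + ⟪η.2, η'.2⟫_ℝ)

/-- `f` near `p` is, after the linear change of coordinates `L`, the graph of `F`. -/
structure IsGraphChart {d : ℕ} {M : Type} [TopologicalSpace M] (f : M → E (3 * d + 2)) (p : M)
    (L : E (3 * d + 2) ≃L[ℝ] T d × N d) (κ : OpenPartialHomeomorph (T d) M)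
    (F : T d → N d) : Prop where
  zero_mem : (0 : T d) ∈ κ.source
  map_zero : κ 0 = p
  smooth : ContDiffOn ℝ ∞ F κ.source
  F0 : F 0 = 0
  DF0 : fderiv ℝ F 0 = 0
  graph : ∀ x ∈ κ.source, L (f (κ x) - f p) = (x, F x)

/-- `q` is a nondegenerate local maximum of a height function (chart free form). -/
def IsTop {M : Type} [TopologicalSpace M] {n : ℕ} (f : M → E n) (q : M) : Prop :=
  ∃ (z : E n) (a : ℝ), 0 < a ∧ ∀ᶠ q' in 𝓝 q, ⟪z, f q'⟫_ℝ + a * ‖f q' - f q‖ ^ 2 ≤ ⟪z, f q⟫_ℝ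

/-- everything the core argument uses about `f : M → E (3d+2)`. -/
structure CoreHyp (d : ℕ) {M : Type} [TopologicalSpace M] (f : M → E (3 * d + 2)) : Prop where
  cont : Continuous f
  inj : Function.Injective f
  conn : ConnIn M
  vanish : ∀ k : ℕ, k + 1 ≠ d → k + 1 ≠ 2 * d → VanishesIn M k
  tight : ∀ (a : E (3 * d + 2)) (b : ℝ), a ≠ 0 → ∀ n : ℕ, InjIn {p : M | ⟪a, f p⟫_ℝ ≤ b} n
  subst : Substantial f
  charts : ∀ p : M, ∃ L κ F, IsGraphChart f p L κ F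

/-! ## Composition algebras with conjugation -/

/-- the properties of `ℍ` and `𝕆` which are used -/
class CompAlg (K : Type) [NormedAddCommGroup K] [InnerProductSpace ℝ K] [Mul K] [One K]
    [StarAddMonoid K] [StarModule ℝ K] : Prop where
  add_mul : ∀ x y z : K, (x + y) * z = x * z + y * z
  mul_add : ∀ x y z : K, x * (y + z) = x * y + x * z
  smul_mul : ∀ (r : ℝ) (x y : K), (r • x) * y = r • (x * y)
  mul_smul : ∀ (r : ℝ) (x y : K), x * (r • y) = r • (x * y)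
  one_mul : ∀ x : K, 1 * x = x
  mul_one : ∀ x : K, x * 1 = x
  norm_mul : ∀ x y : K, ‖x * y‖ = ‖x‖ * ‖y‖
  norm_one : ‖(1 : K)‖ = 1
  norm_star : ∀ x : K, ‖star x‖ = ‖x‖
  star_mul : ∀ x y : K, star (x * y) = star y * star x
  star_one : star (1 : K) = 1
  mul_star : ∀ x : K, x * star x = (‖x‖ ^ 2 : ℝ) • (1 : K)
  star_mul_self : ∀ x : K, star x * x = (‖x‖ ^ 2 : ℝ) • (1 : K)
  mul_mul_star : ∀ x y : K, (x * y) * star y = (‖y‖ ^ 2 : ℝ) • x
  mul_star_mul : ∀ x y : K, (x * star y) * y = (‖y‖ ^ 2 : ℝ) • x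
  star_mul_mul : ∀ x y : K, star x * (x * y) = (‖x‖ ^ 2 : ℝ) • y
  mul_star_mul' : ∀ x y : K, x * (star x * y) = (‖x‖ ^ 2 : ℝ) • y
  inner_mul_left : ∀ x y z : K, ⟪x * y, z⟫_ℝ = ⟪y, star x * z⟫_ℝ
  inner_mul_right : ∀ x y z : K, ⟪x * y, z⟫_ℝ = ⟪x, z * star y⟫_ℝ
  star_eq : ∀ x : K, star x = x ↔ ∃ r : ℝ, x = r • (1 : K)

section Cone

variable (K : Type) [NormedAddCommGroup K] [InnerProductSpace ℝ K] [Mul K] [One K]
    [StarAddMonoid K] [StarModule ℝ K]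

/-- coordinates on `Herm₃(K)`: `(a, (u,v), (b, c, z))` is the Hermitian matrix
`[[a, ū, v̄], [u, b, z̄], [v, z, c]]`. -/
abbrev WK := ℝ × (K × K) × (ℝ × ℝ × K)

variable {K}

/-- the cone over `V(K)`. -/
def Cone : Set (WK K) :=
  {X | X.1 * X.2.2.1 = ‖X.2.1.1‖ ^ 2 ∧ X.1 * X.2.2.2.1 = ‖X.2.1.2‖ ^ 2 ∧
    X.2.2.1 * X.2.2.2.1 = ‖X.2.2.2.2‖ ^ 2 ∧
    X.2.1.2 * star X.2.1.1 = X.1 • X.2.2.2.2 ∧
    X.2.2.2.2 * X.2.1.1 = X.2.2.1 • X.2.1.2 ∧
    star X.2.2.2.2 * X.2.1.2 = X.2.2.2.1 • X.2.1.1}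

/-- the trace. -/
def trW (X : WK K) : ℝ := X.1 + X.2.2.1 + X.2.2.2.1

/-- the affine chart `a = 1` of the cone. -/
def model (y : K × K) : WK K := (1, y, (‖y.1‖ ^ 2, ‖y.2‖ ^ 2, y.2 * star y.1))

end Cone

/-- `S` is, in the coordinates `WK K`, the projective image of `V(K)`. -/
def IsConeImage (K : Type) [NormedAddCommGroup K] [InnerProductSpace ℝ K] [Mul K] [One K]
    [StarAddMonoid K] [StarModule ℝ K] {n : ℕ} (S : Set (E n)) : Prop :=
  ∃ G : WK K ≃ₗ[ℝ] (ℝ × E n), (∀ X ∈ (Cone : Set (WK K)), trW X = 1 → (G X).1 ≠ 0) ∧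
    S = (fun X => (G X).1⁻¹ • (G X).2) '' {X : WK K | X ∈ (Cone : Set (WK K)) ∧ trW X = 1}

end Pool.Agent.KP
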