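import Pool.Agent.Lib_helper69.KP.Defs

/-!
# Barycentric subdivision of mod 2 singular chains: definitions (MP_3b4c52_gt, helper69)
-/

open scoped Topology

noncomputable section

namespace Pool.Agent.KP

/-- the affine map `Δⁿ → Δⁿ` sending the vertex `j` to the barycenter of the vertices
`π 0, …, π j`. In coordinates `(b t)_i = ∑_{j ≥ π⁻¹ i} t_j / (j+1)`. -/
def baryFun (n : ℕ) (π : Equiv.Perm (Fin (n + 1))) (t : Fin (n + 1) → ℝ) : Fin (n + 1) → ℝ :=
  fun i => ∑ j : Fin (n + 1), if π.symm i ≤ j then t j / ((j : ℕ) + 1 : ℝ) else 0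

theorem baryFun_mem (n : ℕ) (π : Equiv.Perm (Fin (n + 1))) (t : Fin (n + 1) → ℝ)
    (ht : t ∈ stdSimplex ℝ (Fin (n + 1))) : baryFun n π t ∈ stdSimplex ℝ (Fin (n + 1)) := by
  constructor
  · intro i
    refine Finset.sum_nonneg fun j _ => ?_
    split_ifs
    · exact div_nonneg (ht.1 j) (by positivity)
    · exact le_rfl
  · unfold baryFun
    rw [Finset.sum_comm]
    refine Eq.trans ?_ ht.2
    refine Finset.sum_congr rfl fun j _ => ?_
    rw [← Equiv.sum_comp π]
    simp only [Equiv.symm_apply_apply]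
    rw [← Finset.sum_filter, Finset.sum_const]
    have : (Finset.univ.filter fun i : Fin (n + 1) => i ≤ j) = Finset.Iic j := by
      ext i; simp
    rw [this, Fin.card_Iic, nsmul_eq_mul]
    push_cast
    have h : ((j : ℕ) : ℝ) + 1 ≠ 0 := by positivity
    field_simp

/-- the cell of the barycentric subdivision of `Δⁿ` with index `π`. -/
def bary (n : ℕ) (π : Equiv.Perm (Fin (n + 1))) :
    C(stdSimplex ℝ (Fin (n + 1)), stdSimplex ℝ (Fin (n + 1))) where
  toFun t := ⟨baryFun n π t, baryFun_mem n π t t.2⟩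
  continuous_toFun := by
    refine Continuous.subtype_mk ?_ _
    refine continuous_pi fun i => ?_
    unfold baryFun
    refine continuous_finsetSum _ fun j _ => ?_
    split_ifs
    · exact ((continuous_apply j).comp continuous_subtype_val).div_const _
    · exact continuous_const

/-- barycentric subdivision of singular chains. -/
def sd {X : Type*} [TopologicalSpace X] (n : ℕ) : Ch X n →ₗ[ZMod 2] Ch X n :=
  Finsupp.linearCombination (ZMod 2)
    (fun σ => ∑ π : Equiv.Perm (Fin (n + 1)), Finsupp.single (σ.comp (bary n π)) (1 : ZMod 2))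

/-- push forward of chains. -/
def push {X Y : Type*} [TopologicalSpace X] [TopologicalSpace Y] (f : C(X, Y)) (n : ℕ) :
    Ch X n →ₗ[ZMod 2] Ch Y n :=
  Finsupp.lmapDomain (ZMod 2) (ZMod 2) (fun σ => f.comp σ)

open Classical in
/-- mod 2 number of simplices of a chain satisfying `P`. -/
def cnt {X : Type*} [TopologicalSpace X] (n : ℕ)
    (P : C(stdSimplex ℝ (Fin (n + 1)), X) → Prop) : Ch X n →ₗ[ZMod 2] ZMod 2 :=
  Finsupp.linearCombination (ZMod 2) (fun σ => if P σ then (1 : ZMod 2) else 0)

end Pool.Agent.KP
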