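import Pool.Agent.Lib_helper53.KP.H2
import Pool.Agent.Lib_helper15.KP.I
import Pool.Agent.Lib_helper9.KP.J
import Pool.Agent.Lib_helper65.KP.K

/-!
# Block L: local rigidity (MP_3b4c52_gt, helper69)
-/

open scoped Manifold ContDiff InnerProductSpace Quaternion Topology Matrix
open Metric Set

noncomputable section

namespace Pool.Agent.KP

variable {d : ℕ}

theorem IsSys.mono {F : T d → N d} {c : T d → (N d →L[ℝ] T d)}
    {e : T d → (T d →L[ℝ] N d →L[ℝ] T d)} {r r' : ℝ} (h : IsSys F c e r) (hr : r' ≤ r) :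
    IsSys F c e r' where
  dF x hx := h.dF x (ball_subset_ball hr hx)
  dF1 x hx := h.dF1 x (ball_subset_ball hr hx)
  dF2 x hx := h.dF2 x (ball_subset_ball hr hx)
  symm x hx := h.symm x (ball_subset_ball hr hx)
  dc x hx := h.dc x (ball_subset_ball hr hx)
  de x hx := h.de x (ball_subset_ball hr hx)
  eqQ x hx := h.eqQ x (ball_subset_ball hr hx)
  eqc x hx := h.eqc x (ball_subset_ball hr hx)
  eqe x hx := h.eqe x (ball_subset_ball hr hx)
  sym4 x hx := h.sym4 x (ball_subset_ball hr hx)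

theorem Q0_comm (p : NProd d) (ξ η : T d) : Q0 p ξ η = Q0 p η ξ := by
  simp only [Q0_apply, real_inner_comm, add_comm]

/-- vectors `Q0 ξ ξ` separate functionals -/
theorem functional_eq_zero (p : NProd d) (ψ : N d →L[ℝ] ℝ) (h : ∀ ξ, ψ (Q0 p ξ ξ) • Q0 p ξ ξ = 0) :
    ∀ ξ, ψ (Q0 p ξ ξ) = 0 := by
  intro ξ
  by_cases hz : Q0 p ξ ξ = 0
  · rw [hz, map_zero]
  · exact (smul_eq_zero.mp (h ξ)).resolve_right hz

theorem exists_isSys (hd : 2 ≤ d) (F : T d → N d) (Ω : Set (T d)) (hΩ : IsOpen Ω)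
    (h0 : (0 : T d) ∈ Ω) (hF : ContDiffOn ℝ ∞ F Ω) (hS : ∀ x ∈ Ω, Std (D2 F x)) :
    ∃ r > 0, ∃ c e, IsSys F c e r :=
  BI.exists_isSys_of
    (fun Q x0 h1 h2 h3 h4 => tri_exists_std hd Q x0 h1 h2 h3 h4)
    (fun Q hQ c hc => tri_unique_std (by omega) Q hQ c hc)
    (fun Q hQ e he hs => sym4_prolong_std hd Q hQ e he hs)
    F Ω hΩ h0 hF hS

theorem local_norm (hd : 2 ≤ d) (p : NProd d) (F : T d → N d) (Ω : Set (T d)) (hΩ : IsOpen Ω)
    (h0 : (0 : T d) ∈ Ω) (hF : ContDiffOn ℝ ∞ F Ω) (hS : ∀ x ∈ Ω, Std (D2 F x))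
    (hF0 : F 0 = 0) (hF1 : fderiv ℝ F 0 = 0) (hF2 : D2 F 0 = Q0 p) :
    ∃ (c₀ : N d →L[ℝ] T d) (ψ : N d →L[ℝ] ℝ), ∀ᶠ x in 𝓝 (0 : T d),
      (1 - ψ (F x)) • F x = (1/2 : ℝ) • Q0 p (x + c₀ (F x)) (x + c₀ (F x)) := by
  obtain ⟨r, hr, c, e, hsys⟩ := exists_isSys hd F Ω hΩ h0 hF hS
  have h4 := hsys.sym4 0 (mem_ball_self hr)
  rw [hF2] at h4
  obtain ⟨ψ, hψ⟩ := sym4_psi hd p (e 0) h4
  refine ⟨c 0, ψ, ?_⟩
  obtain ⟨F', φ, hφ0, hF's, hS', hF'0, hF'1, hF'2, hgr, hj3, hj4⟩ := exists_model p (c 0) ψ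
  obtain ⟨r', hr', c', e', hsys'⟩ := exists_isSys hd F' φ.source φ.open_source hφ0 hF's hS'
  -- comparison of the third derivatives
  have J := fun ξ => jets_isSys F c e r hr hsys ξ
  have J' := fun ξ => jets_isSys F' c' e' r' hr' hsys' ξ
  rw [hF2] at J
  rw [hF'2] at J'
  have hc : c' 0 = c 0 := by
    have : c' 0 - c 0 = 0 := by
      refine tri_unique_Q0 (by omega) p _ fun ξ => ?_
      have h1 := (J' ξ).1
      rw [hj3 ξ] at h1
      have h2 := smul_right_injective (N d) (three_ne_zero (α := ℝ)) h1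
      rw [_root_.sub_apply, map_sub, ← h2, sub_self]
    exact sub_eq_zero.mp this
  have h4' := hsys'.sym4 0 (mem_ball_self hr')
  rw [hF'2] at h4'
  obtain ⟨ψ', hψ'⟩ := sym4_psi hd p (e' 0) h4'
  have hpsi : ∀ ξ, ψ' (Q0 p ξ ξ) = ψ (Q0 p ξ ξ) := by
    intro ξ
    have key : (ψ' - ψ) (Q0 p ξ ξ) • Q0 p ξ ξ = 0 := by
      have h1 := (J' ξ).2
      rw [hj4 ξ, hc, hψ' ξ] at h1
      have h2 := add_left_cancel h1
      rw [map_smul] at h2
      simp only [_root_.sub_apply]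
      have h3 : (3 : ℝ) • (2 * ψ' (Q0 p ξ ξ)) • Q0 p ξ ξ - (6 * ψ (Q0 p ξ ξ)) • Q0 p ξ ξ = 0 := by
        rw [← h2, sub_self]
      have h5 : (6 : ℝ) • ((ψ' (Q0 p ξ ξ) - ψ (Q0 p ξ ξ)) • Q0 p ξ ξ) = 0 := by
        rw [← h3]; module
      exact (smul_eq_zero.mp h5).resolve_left (by norm_num)
    have h6 : ∀ ξ, (ψ' - ψ) (Q0 p ξ ξ) • Q0 p ξ ξ = 0 → (ψ' - ψ) (Q0 p ξ ξ) = 0 := by
      intro ξ h
      by_cases hz : Q0 p ξ ξ = 0
      · rw [hz, map_zero]
      · exact (smul_eq_zero.mp h).resolve_right hz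
    have := h6 ξ key
    rwa [_root_.sub_apply, sub_eq_zero] at this
  have he : e' 0 = e 0 := by
    have : e' 0 - e 0 = 0 := by
      refine sym4_zero hd p _ ?_ ?_
      · intro θ ξ η ζ
        have a1 := h4' θ ξ η ζ
        have a2 := h4 θ ξ η ζ
        simp only [_root_.sub_apply, map_sub]
        have a3 := congrArg₂ (fun a b => a - b) a1 a2
        have e1 : ∀ a b c a' b' c' : N d, (a - a') + (b - b') + (c - c') = (a + b + c) - (a' + b' + c') := by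
          intros; abel
        rw [e1, e1]
        exact a3
      · intro ξ
        rw [_root_.sub_apply, _root_.sub_apply, hψ', hψ, hpsi, sub_self]
    exact sub_eq_zero.mp this
  -- uniqueness
  have hmin : 0 < min r r' := lt_min hr hr'
  have huniq := isSys_unique F F' c c' e e' (min r r') (hsys.mono (min_le_left _ _))
    (hsys'.mono (min_le_right _ _)) (by rw [hF0, hF'0]) (by rw [hF1, hF'1]) (by rw [hF2, hF'2])
    hc.symm he.symm
  filter_upwards [ball_mem_nhds (0 : T d) hmin, φ.open_source.mem_nhds hφ0] with x hx hxφ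
  rw [huniq x hx]
  obtain ⟨s, hs, hsx⟩ := hgr x hxφ
  set y := φ x
  set z := (1/2 : ℝ) • Q0 p y y with hz
  have e1 : (1 : ℝ) = s * (1 + ψ z) := congrArg Prod.fst hsx
  have e2 : x = s • (y - c 0 z) := congrArg (fun w : W d => w.2.1) hsx
  have e3 : F' x = s • z := congrArg (fun w : W d => w.2.2) hsx
  rw [e3]
  have e4 : x + c 0 (s • z) = s • y := by
    rw [map_smul]
    conv_lhs => rw [e2]
    module
  have e5 : 1 - ψ (s • z) = s := by
    rw [map_smul, smul_eq_mul]; linarith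
  rw [e4, e5]
  simp only [map_smul, _root_.smul_apply]
  rw [hz]
  module

end Pool.Agent.KP
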