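import Pool.Agent.Lib_helper69.KP.Defs2

/-!
# Basic identities for normed products (MP_3b4c52_gt, helper69)
-/

open scoped InnerProductSpace

noncomputable section

namespace Pool.Agent.KP

namespace NProd

variable {d : ℕ} (p : NProd d)

theorem inner_mul_mul_left (v u u' : E d) :
    ⟪p.mul v u, p.mul v u'⟫_ℝ = ‖v‖ ^ 2 * ⟪u, u'⟫_ℝ := by
  have h1 := p.norm_mul v (u + u')
  rw [map_add] at h1
  have h2 := congrArg (fun x => x ^ 2) h1
  simp only [mul_pow] at h2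
  rw [norm_add_sq_real, norm_add_sq_real, p.norm_mul, p.norm_mul] at h2
  linarith

theorem inner_mul_mul_right (v v' u : E d) :
    ⟪p.mul v u, p.mul v' u⟫_ℝ = ⟪v, v'⟫_ℝ * ‖u‖ ^ 2 := by
  have h1 := p.norm_mul (v + v') u
  rw [map_add, _root_.add_apply] at h1
  have h2 := congrArg (fun x => x ^ 2) h1
  simp only [mul_pow] at h2
  rw [norm_add_sq_real, norm_add_sq_real, p.norm_mul, p.norm_mul] at h2
  linarith

theorem adj_mul (v u : E d) : p.adj (p.mul v u) u = ‖u‖ ^ 2 • v := by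
  refine ext_inner_right ℝ fun w => ?_
  rw [p.inner_adj, p.inner_mul_mul_right, inner_smul_left]
  simp [mul_comm]

theorem surj (u : E d) (hu : u ≠ 0) (s : E d) : ∃ v, p.mul v u = s := by
  have hinj : Function.Injective (p.mul.flip u : E d →ₗ[ℝ] E d) := by
    rw [injective_iff_map_eq_zero]
    intro v hv
    have h : ‖p.mul v u‖ = 0 := by
      rw [show p.mul v u = 0 from hv, norm_zero]
    rw [p.norm_mul] at h
    rcases mul_eq_zero.mp h with h | h
    · exact norm_eq_zero.mp h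
    · exact absurd (norm_eq_zero.mp h) hu
  obtain ⟨v, hv⟩ := (LinearMap.injective_iff_surjective.mp hinj) s
  exact ⟨v, hv⟩

theorem mul_adj (s u : E d) : p.mul (p.adj s u) u = ‖u‖ ^ 2 • s := by
  by_cases hu : u = 0
  · subst hu; simp
  · obtain ⟨v, rfl⟩ := p.surj u hu s
    rw [p.adj_mul, map_smul]
    rfl

theorem adj_add_left (s s' u : E d) : p.adj (s + s') u = p.adj s u + p.adj s' u := by
  simp [adj]

theorem adj_smul_left (r : ℝ) (s u : E d) : p.adj (r • s) u = r • p.adj s u := by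
  simp [adj]

theorem adj_add_right (s u u' : E d) : p.adj s (u + u') = p.adj s u + p.adj s u' := by
  refine ext_inner_right ℝ fun w => ?_
  rw [inner_add_left, p.inner_adj, p.inner_adj, p.inner_adj, map_add, inner_add_right]

theorem adj_smul_right (r : ℝ) (s u : E d) : p.adj s (r • u) = r • p.adj s u := by
  refine ext_inner_right ℝ fun w => ?_
  rw [inner_smul_left, p.inner_adj, p.inner_adj, map_smul, inner_smul_right]
  simp

theorem adj_zero_left (u : E d) : p.adj 0 u = 0 := by simp [adj]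

theorem norm_adj_sq (s u : E d) : ‖p.adj s u‖ ^ 2 = ‖s‖ ^ 2 * ‖u‖ ^ 2 := by
  rw [← real_inner_self_eq_norm_sq, p.inner_adj, p.mul_adj, inner_smul_right,
    real_inner_self_eq_norm_sq]
  ring

theorem inner_adj_adj (s u u' : E d) :
    ⟪p.adj s u, p.adj s u'⟫_ℝ = ‖s‖ ^ 2 * ⟪u, u'⟫_ℝ := by
  have h1 := p.norm_adj_sq s (u + u')
  rw [p.adj_add_right, norm_add_sq_real, norm_add_sq_real, p.norm_adj_sq, p.norm_adj_sq] at h1
  linarith

theorem mul_adj_add (s u u' : E d) :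
    p.mul (p.adj s u) u' + p.mul (p.adj s u') u = (2 * ⟪u, u'⟫_ℝ) • s := by
  have h1 := p.mul_adj s (u + u')
  simp only [p.adj_add_right, map_add, _root_.add_apply, p.mul_adj, norm_add_sq_real] at h1
  have h2 : p.mul (p.adj s u) u' + p.mul (p.adj s u') u =
      (‖u‖ ^ 2 + 2 * ⟪u, u'⟫_ℝ + ‖u'‖ ^ 2) • s - ‖u‖ ^ 2 • s - ‖u'‖ ^ 2 • s := by
    rw [← h1]; abel
  rw [h2]; module

end NProd

/-- a unit vector orthogonal to a given vector -/
theorem exists_unit_orthogonal {d : ℕ} (hd : 2 ≤ d) (x : E d) :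
    ∃ u : E d, ‖u‖ = 1 ∧ ⟪x, u⟫_ℝ = 0 := by
  have h1 : Module.finrank ℝ (E d) = d := by simp
  have h2 : Module.finrank ℝ (ℝ ∙ x) ≤ 1 := by
    have := finrank_span_le_card (R := ℝ) ({x} : Set (E d))
    simpa using this
  have h3 := Submodule.finrank_add_finrank_orthogonal (ℝ ∙ x)
  rw [h1] at h3
  have h4 : 0 < Module.finrank ℝ (ℝ ∙ x)ᗮ := by omega
  have : Nontrivial (ℝ ∙ x)ᗮ := Module.finrank_pos_iff.mp h4
  obtain ⟨w, hw⟩ := exists_ne (0 : (ℝ ∙ x)ᗮ)
  have hw0 : (w : E d) ≠ 0 := fun h => hw (Subtype.ext h)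
  have hw1 : ⟪x, (w : E d)⟫_ℝ = 0 := Submodule.mem_orthogonal_singleton_iff_inner_right.mp w.2
  refine ⟨(‖(w : E d)‖⁻¹ : ℝ) • (w : E d), ?_, ?_⟩
  · rw [norm_smul, norm_inv, norm_norm, inv_mul_cancel₀ (norm_ne_zero_iff.mpr hw0)]
  · rw [inner_smul_right, hw1, mul_zero]

theorem exists_unit {d : ℕ} (hd : 1 ≤ d) : ∃ u : E d, ‖u‖ = 1 :=
  ⟨EuclideanSpace.single ⟨0, hd⟩ 1, by simp⟩

end Pool.Agent.KP
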